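import Pool.Agent.helper73.TF.Spec

set_option autoImplicit false

namespace Pool.Agent.TF

open Matrix Pool.Agent.H48SL
open scoped Pointwise

theorem ITV_field {K : Type*} [Field K] {n : ℕ} (A : Matrix (Fin n) (Fin n) K) (h : A.rank ≤ 1)
    (i i' j j' : Fin n) : A i j * A i' j' = A i j' * A i' j := by
  unfold Matrix.rank at h
  obtain ⟨v, hv⟩ := finrank_le_one_iff.1 h
  have hcol : ∀ j : Fin n, ∃ c : K, ∀ i, A i j = c * (v : Fin n → K) i := by
    intro j
    obtain ⟨c, hc⟩ := hv ⟨A.mulVecLin (Pi.single j 1), ⟨_, rfl⟩⟩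
    refine ⟨c, fun i => ?_⟩
    have h1 := congrFun (congrArg Subtype.val hc) i
    simp only [Matrix.mulVecLin_apply, Submodule.coe_smul, Pi.smul_apply, smul_eq_mul, Matrix.mulVec_single_one,
      Matrix.col_apply] at h1
    exact h1.symm
  obtain ⟨c, hc⟩ := hcol j
  obtain ⟨c', hc'⟩ := hcol j'
  rw [hc, hc', hc, hc']
  ring

theorem ITV_minor {n : ℕ} (N : Matrix (Fin n) (Fin n) ℤ)
    (h : ∀ p : ℕ, p.Prime → ((N.map (fun a : ℤ => (a : ZMod p))).rank ≤ 1)) (i i' j j' : Fin n) :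
    N i j * N i' j' = N i j' * N i' j := by
  by_contra hne
  have h0 : N i j * N i' j' - N i j' * N i' j ≠ 0 := sub_ne_zero.2 hne
  obtain ⟨p, hp, hpp⟩ := Nat.exists_infinite_primes ((N i j * N i' j' - N i j' * N i' j).natAbs + 1)
  have := Fact.mk hpp
  have h1 := ITV_field _ (h p hpp) i i' j j'
  simp only [Matrix.map_apply] at h1
  have h2 : ((N i j * N i' j' - N i j' * N i' j : ℤ) : ZMod p) = 0 := by
    push_cast
    rw [h1, sub_self]
  rw [ZMod.intCast_zmod_eq_zero_iff_dvd] at h2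
  have h3 := Int.natAbs_dvd_natAbs.2 h2
  have h4 := Nat.le_of_dvd (Int.natAbs_pos.2 h0) h3
  simp only [Int.natAbs_natCast] at h4
  omega

theorem ITV_decomp {n : ℕ} (N : Matrix (Fin n) (Fin n) ℤ) (hN : N ≠ 0)
    (h : ∀ i i' j j' : Fin n, N i j * N i' j' = N i j' * N i' j) :
    ∃ v f : Fin n → ℤ, v ≠ 0 ∧ f ≠ 0 ∧ N = vecMulVec v f := by
  have h0 : ∃ i0 j0, N i0 j0 ≠ 0 := by
    by_contra hcon
    push Not at hcon
    exact hN (by ext i j; exact hcon i j)
  obtain ⟨i0, j0, hij⟩ := h0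
  have hpr : (Ideal.span (Set.range (N i0))).IsPrincipal := IsPrincipalIdealRing.principal _
  obtain ⟨d, hd⟩ := hpr.principal
  have hd1 : d ∈ Ideal.span (Set.range (N i0)) := by
    rw [hd]; exact Submodule.mem_span_singleton_self d
  obtain ⟨a, ha⟩ := (Ideal.mem_span_range_iff_exists_fun).1 hd1
  have hf : ∀ j, ∃ c : ℤ, N i0 j = d * c := by
    intro j
    have h1 : N i0 j ∈ Ideal.span (Set.range (N i0)) := Ideal.subset_span ⟨j, rfl⟩
    rw [hd] at h1
    obtain ⟨c, hc⟩ := Submodule.mem_span_singleton.1 h1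
    exact ⟨c, by rw [← hc, smul_eq_mul, mul_comm]⟩
  choose f hf using hf
  have hd0 : d ≠ 0 := by
    intro h1
    apply hij
    rw [hf, h1, zero_mul]
  have hdec : ∀ i j, N i j = (∑ j', a j' * N i j') * f j := by
    intro i j
    apply mul_left_cancel₀ hd0
    calc d * N i j = (∑ j', a j' * N i0 j') * N i j := by rw [ha]
      _ = ∑ j', a j' * (N i j * N i0 j') := by
          rw [Finset.sum_mul]
          exact Finset.sum_congr rfl fun j' _ => by ring
      _ = ∑ j', a j' * (N i j' * N i0 j) := by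
          exact Finset.sum_congr rfl fun j' _ => by rw [h i i0 j j']
      _ = (∑ j', a j' * N i j') * N i0 j := by
          rw [Finset.sum_mul]
          exact Finset.sum_congr rfl fun j' _ => by ring
      _ = d * ((∑ j', a j' * N i j') * f j) := by rw [hf j]; ring
  refine ⟨fun i => ∑ j', a j' * N i j', f, ?_, ?_, ?_⟩
  · intro h1
    apply hij
    rw [hdec, show (∑ j', a j' * N i0 j') = 0 from congrFun h1 i0, zero_mul]
  · intro h1
    apply hij
    rw [hdec, h1, Pi.zero_apply, mul_zero]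
  · ext i j
    rw [vecMulVec_apply]
    exact hdec i j

theorem ITV : ITV_stmt := by
  intro n g hg h
  have hN : ((g : Matrix (Fin n) (Fin n) ℤ) - 1) ≠ 0 := by
    intro h1
    apply hg
    apply SL_ext
    rw [sub_eq_zero] at h1
    rw [h1, Matrix.SpecialLinearGroup.coe_one]
  obtain ⟨v, f, hv, hf, hvf⟩ := ITV_decomp _ hN (ITV_minor _ h)
  have hg1 : (g : Matrix (Fin n) (Fin n) ℤ) = 1 + vecMulVec v f := by
    rw [← hvf]; abel
  have hdot : f ⬝ᵥ v = 0 := by
    have h1 := det_one_add_vecMulVec v f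
    rw [← hg1, Matrix.SpecialLinearGroup.det_coe] at h1
    linarith
  refine ⟨v, f, hv, hf, hdot, ?_⟩
  apply SL_ext
  rw [tv_coe hdot, hg1]

end Pool.Agent.TF
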